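import Pool.Agent.Run7.h592.CE.NZ

/-!
# Project CE (helper450), piece LO, written by helper592
-/

set_option autoImplicit false
open Filter Topology

namespace Run7.h592.CE

open Run7.h450.CE

lemma diag_pow_pos {N : ℕ} {X : Matrix (Fin N) (Fin N) ℕ} {i : Fin N} (h : 0 < X i i) (q : ℕ) :
    0 < (X ^ q) i i := by
  induction q with
  | zero => simp
  | succ q ih =>
    rw [pow_succ, Matrix.mul_apply]
    exact lt_of_lt_of_le (Nat.mul_pos ih h)
      (Finset.single_le_sum (f := fun j => (X ^ q) i j * X j i) (fun j _ => Nat.zero_le _)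
        (Finset.mem_univ i))

lemma pow_ne_zero_of_irred {N : ℕ} {A : Matrix (Fin N) (Fin N) ℕ} (hN : 0 < N) (hi : Irred A)
    (m : ℕ) : A ^ m ≠ 0 := by
  intro h0
  obtain ⟨q, hq, hA⟩ := hi ⟨0, hN⟩ ⟨0, hN⟩
  have h1 := diag_pow_pos hA (m + 1)
  rw [← pow_mul] at h1
  have h2 : q * (m + 1) = m + (q * (m + 1) - m) := by
    have : m ≤ q * (m + 1) := by nlinarith
    omega
  rw [h2, pow_add, h0, zero_mul] at h1
  simp at h1

lemma sum_pos' {N : ℕ} {A : Matrix (Fin N) (Fin N) ℕ} (hN : 0 < N) (hi : Irred A)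
    (m : ℕ) : (0 : ℝ) < ∑ i, ∑ j, ((A ^ m) i j : ℝ) := by
  have h1 : 0 < ∑ i, ∑ j, (A ^ m) i j := by
    rw [Nat.pos_iff_ne_zero]
    intro h
    apply pow_ne_zero_of_irred hN hi m
    ext i j
    have h2 := (Finset.sum_eq_zero_iff.1 h) i (Finset.mem_univ i)
    exact (Finset.sum_eq_zero_iff.1 h2) j (Finset.mem_univ j)
  exact_mod_cast h1

theorem t_LO : S_LOW → S_WRD → S_GR2 → S_LO := by
  intro hLOW hWRD hGR2 N A B _ _ S h01 hi h d
  classical
  have hN : 0 < N := by
    rcases Nat.eq_zero_or_pos N with h0 | h0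
    · subst h0
      have := h.sum_one
      simp at this
    · exact h0
  have hN1 : (0 : ℝ) ≤ (N : ℝ) - 1 := by
    have : (1 : ℝ) ≤ N := by exact_mod_cast hN
    linarith
  set W : ℕ → ℝ := fun m => ∑ i, ∑ j, ((A ^ m) i j : ℝ) with hWdef
  have hWpos : ∀ m, 0 < W m := fun m => sum_pos' hN hi m
  have hG := hGR2 N A hN h01 hi
  -- first claim
  have claim1 : ∀ ε : ℝ, 0 < ε → ε < 1 → ∀ t : ℝ, 0 ≤ t →
      ((Real.log (rA A) + t * ((1 - ε) / (1 + 2 * ε)) - Real.log ((N : ℝ) - 1 + Real.exp t) : ℝ) :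
        EReal) ≤ htNuc d (theta S) := by
    intro ε hε hε1 t ht
    set c : ℝ := (1 - ε) / (1 + 2 * ε) with hc
    set F : Finset B := insert 1 (Finset.univ.image (PP S)) with hF
    have hF1 : (1 : B) ∈ F := Finset.mem_insert_self _ _
    have hFP : ∀ a, PP S a ∈ F := fun a =>
      Finset.mem_insert_of_mem (Finset.mem_image_of_mem _ (Finset.mem_univ a))
    refine le_trans ?_ (le_iSup_of_le F (le_iSup_of_le ε (le_iSup_of_le hε le_rfl)))
    set a : ℕ → ℝ := fun m => Real.log (W m) / ((m : ℝ) + 1) + t * c -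
      Real.log ((N : ℝ) - 1 + Real.exp t) with ha
    have hal : Tendsto a atTop
        (𝓝 (Real.log (rA A) + t * c - Real.log ((N : ℝ) - 1 + Real.exp t))) :=
      (hG.add_const _).sub_const _
    have hb : Tendsto (fun n : ℕ => ((a (n - 1) : ℝ) : EReal)) atTop
        (𝓝 ((Real.log (rA A) + t * c - Real.log ((N : ℝ) - 1 + Real.exp t) : ℝ) : EReal)) :=
      (continuous_coe_real_ereal.tendsto _).comp (hal.comp (tendsto_sub_atTop_nat 1))
    rw [← hb.limsup_eq]
    refine limsup_le_limsup ?_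
    filter_upwards [eventually_ge_atTop 1] with n hn
    obtain ⟨m, rfl⟩ : ∃ m, n = m + 1 := ⟨n - 1, by omega⟩
    have hpos : (0 : ℝ) < (N : ℝ) - 1 + Real.exp t := by
      have := Real.exp_pos t
      linarith
    have hm : (0 : ℝ) < (m : ℝ) + 1 := by positivity
    have hexp : Real.exp (((m : ℝ) + 1) * a m) =
        W m * Real.exp (t * (((m : ℝ) + 1) * c)) / ((N : ℝ) - 1 + Real.exp t) ^ (m + 1) := by
      have e : ((m : ℝ) + 1) * a m = Real.log (W m) + t * (((m : ℝ) + 1) * c) -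
          ((m + 1 : ℕ) : ℝ) * Real.log ((N : ℝ) - 1 + Real.exp t) := by
        simp only [ha]
        push_cast
        field_simp
      rw [e, Real.exp_sub, Real.exp_add, Real.exp_log (hWpos m), Real.exp_nat_mul,
        Real.exp_log hpos]
    have hkey : ENNReal.ofReal (Real.exp (((m : ℝ) + 1) * a m)) ≤
        rnuc d (orb (theta S) F (m + 1)) ε := by
      unfold rnuc
      refine le_iInf₂ (fun s hs => ?_)
      have hs1 : ‖s.T 1 - 1‖ ≤ ε := (hs 1 ⟨0, by omega, 1, hF1, rfl⟩).le
      have hs2 : ∀ (k : ℕ) (a : Fin N), k < m + 1 →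
          ‖s.T ((theta S)^[k] (PP S a)) - (theta S)^[k] (PP S a)‖ ≤ ε :=
        fun k a hk => (hs _ ⟨k, hk, PP S a, hFP a, rfl⟩).le
      have h1 := hLOW N A B S hN h01 hi h d s m ε t hε hε1 ht hs1 hs2
      rw [hWRD N A h01 m] at h1
      push_cast at h1
      rw [← ENNReal.ofReal_natCast]
      apply ENNReal.ofReal_le_ofReal
      rw [hexp, div_le_iff₀ (pow_pos hpos _)]
      exact h1
    have hlog : ((((m : ℝ) + 1) * a m : ℝ) : EReal) ≤
        ENNReal.log (rnuc d (orb (theta S) F (m + 1)) ε) := by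
      have h1 := ENNReal.log_monotone hkey
      rwa [ENNReal.log_ofReal_of_pos (Real.exp_pos _), Real.log_exp] at h1
    show ((a (m + 1 - 1) : ℝ) : EReal) ≤ _
    rw [Nat.add_sub_cancel]
    rw [EReal.le_div_iff_mul_le]
    · have e : ((a m : ℝ) : EReal) * ((m + 1 : ℕ) : EReal) = ((((m : ℝ) + 1) * a m : ℝ) : EReal) := by
        have : ((m + 1 : ℕ) : EReal) = (((m : ℝ) + 1 : ℝ) : EReal) := by
          push_cast; rfl
        rw [this, ← EReal.coe_mul, mul_comm]
      rw [e]
      exact hlog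
    · exact_mod_cast Nat.succ_pos m
    · exact EReal.natCast_ne_top _
  -- second claim
  have claim2 : ∀ t : ℝ, 0 ≤ t →
      ((Real.log (rA A) + t * 1 - Real.log ((N : ℝ) - 1 + Real.exp t) : ℝ) : EReal) ≤
        htNuc d (theta S) := by
    intro t ht
    have hcont : ContinuousAt (fun ε : ℝ => Real.log (rA A) + t * ((1 - ε) / (1 + 2 * ε)) -
        Real.log ((N : ℝ) - 1 + Real.exp t)) 0 := by
      have : ContinuousAt (fun ε : ℝ => (1 - ε) / (1 + 2 * ε)) 0 :=
        ContinuousAt.div (by fun_prop) (by fun_prop) (by norm_num)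
      exact (continuousAt_const.add (continuousAt_const.mul this)).sub continuousAt_const
    have h1 : Tendsto (fun ε : ℝ => Real.log (rA A) + t * ((1 - ε) / (1 + 2 * ε)) -
        Real.log ((N : ℝ) - 1 + Real.exp t)) (𝓝[>] 0)
        (𝓝 (Real.log (rA A) + t * 1 - Real.log ((N : ℝ) - 1 + Real.exp t))) := by
      have := hcont.tendsto.mono_left (nhdsWithin_le_nhds (s := Set.Ioi (0 : ℝ)))
      simpa using this
    have h2 := (continuous_coe_real_ereal.tendsto _).comp h1
    refine le_of_tendsto h2 ?_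
    filter_upwards [Ioo_mem_nhdsGT (show (0 : ℝ) < 1 by norm_num)] with ε hε
    exact claim1 ε hε.1 hε.2 t ht
  -- third claim
  have e3 : ∀ t : ℝ, Real.log (rA A) + t * 1 - Real.log ((N : ℝ) - 1 + Real.exp t) =
      Real.log (rA A) - Real.log (1 + ((N : ℝ) - 1) * Real.exp (-t)) := by
    intro t
    have hp : 0 < 1 + ((N : ℝ) - 1) * Real.exp (-t) := by
      have := mul_nonneg hN1 (Real.exp_pos (-t)).le
      linarith
    have e : (N : ℝ) - 1 + Real.exp t = Real.exp t * (1 + ((N : ℝ) - 1) * Real.exp (-t)) := by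
      have : Real.exp t * Real.exp (-t) = 1 := by rw [← Real.exp_add]; simp
      calc (N : ℝ) - 1 + Real.exp t = Real.exp t + ((N : ℝ) - 1) * (Real.exp t * Real.exp (-t)) := by
            rw [this]; ring
        _ = _ := by ring
    rw [e, Real.log_mul (Real.exp_pos t).ne' hp.ne', Real.log_exp]
    ring
  have h3 : Tendsto (fun t : ℝ => Real.log (rA A) + t * 1 - Real.log ((N : ℝ) - 1 + Real.exp t))
      atTop (𝓝 (Real.log (rA A))) := by
    simp only [e3]
    have h4 : Tendsto (fun t : ℝ => 1 + ((N : ℝ) - 1) * Real.exp (-t)) atTop (𝓝 1) := by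
      have := (Real.tendsto_exp_neg_atTop_nhds_zero.const_mul ((N : ℝ) - 1)).const_add 1
      simpa using this
    have h5 := ((Real.continuousAt_log one_ne_zero).tendsto.comp h4).const_sub (Real.log (rA A))
    simpa using h5
  have h6 := (continuous_coe_real_ereal.tendsto _).comp h3
  refine le_of_tendsto h6 ?_
  filter_upwards [eventually_ge_atTop (0 : ℝ)] with t ht
  exact claim2 t ht

end Run7.h592.CE
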