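import Pool.Agent.Run7.h592.CE.NZ

/-!
# Project CE (helper450), piece LOW, written by helper592
-/

set_option autoImplicit false
open Filter Topology Matrix
open scoped ComplexOrder MatrixOrder

namespace Run7.h592.CE

open Run7.h450.CE

lemma pos_iff_psd {K : Type} [Fintype K] {M : Matrix K K ℂ} : Pos M ↔ M.PosSemidef := by
  constructor
  · rintro ⟨c, rfl⟩
    exact posSemidef_conjTranspose_mul_self c
  · intro h
    classical
    exact CStarAlgebra.nonneg_iff_eq_star_mul_self.mp h.nonneg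

lemma cp_pos {A B : Type*} [Semiring A] [StarRing A] [Semiring B] [StarRing B] {T : A → B}
    (h : CP T) {x : A} (hx : Pos x) : Pos (T x) := by
  obtain ⟨c, rfl⟩ := hx
  have := h 1 (fun _ => c) (fun _ => 1)
  simpa using this

section order
variable {B : Type} [CStarAlgebra B] [PartialOrder B] [StarOrderedRing B]

lemma pos_iff_nonneg {x : B} : Pos x ↔ 0 ≤ x :=
  CStarAlgebra.nonneg_iff_eq_star_mul_self.symm

variable {d : ℕ} (s : Sys d B)

lemma T_nonneg {x : B} (hx : 0 ≤ x) : 0 ≤ s.T x := by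
  unfold Sys.T
  refine Finset.sum_nonneg (fun i _ => ?_)
  exact pos_iff_nonneg.1 (cp_pos (s.φ_cp i) (cp_pos (s.ψ_cp i) (pos_iff_nonneg.2 hx)))

lemma phi_one_nonneg : 0 ≤ ∑ i, s.φ i 1 := by
  refine Finset.sum_nonneg (fun i _ => ?_)
  refine pos_iff_nonneg.1 (cp_pos (s.φ_cp i) ⟨1, by simp⟩)

lemma phi_one_le : ∑ i, s.φ i 1 ≤ ((d : ℝ) + 1) • (1 : B) := by
  classical
  have h1 : ∑ i, s.φ i 1 = ∑ c : Fin (d + 1), ∑ i : {i // s.col i = c}, s.φ i.1 1 := by
    rw [← Finset.sum_fiberwise Finset.univ s.col (fun i => s.φ i 1)]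
    refine Finset.sum_congr rfl (fun c _ => ?_)
    exact Finset.sum_subtype (Finset.univ.filter (fun i => s.col i = c)) (by simp)
      (fun i => s.φ i 1)
  rw [h1]
  have h2 : ∑ c : Fin (d + 1), ∑ i : {i // s.col i = c}, s.φ i.1 1 ≤
      ∑ _c : Fin (d + 1), (1 : B) := by
    refine Finset.sum_le_sum (fun c _ => ?_)
    have := pos_iff_nonneg.1 (s.φ_one c)
    exact sub_nonneg.1 this
  refine h2.trans (le_of_eq ?_)
  simp only [Finset.sum_const, Finset.card_univ, Fintype.card_fin]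
  rw [← Nat.cast_smul_eq_nsmul ℝ]
  push_cast
  rfl

lemma norm_bounds {x : B} (hx : IsSelfAdjoint x) {ε : ℝ} (h : ‖x‖ ≤ ε) :
    0 ≤ x + ε • (1 : B) ∧ 0 ≤ ε • (1 : B) - x := by
  have h1 := hx.neg_algebraMap_norm_le_self
  have h2 := hx.le_algebraMap_norm_self
  rw [Algebra.algebraMap_eq_smul_one] at h1 h2
  have h3 : (‖x‖ : ℝ) • (1 : B) ≤ ε • (1 : B) := by
    have : 0 ≤ (ε - ‖x‖) • (1 : B) := smul_nonneg (sub_nonneg.2 h) zero_le_one
    rw [sub_smul] at this
    exact sub_nonneg.1 this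
  constructor
  · have := add_nonneg (sub_nonneg.2 h1) (sub_nonneg.2 h3)
    have e : x - -(‖x‖ • (1 : B)) + (ε • (1 : B) - ‖x‖ • (1 : B)) = x + ε • (1 : B) := by abel
    rwa [e] at this
  · exact sub_nonneg.2 (h2.trans h3)

end order

variable {N : ℕ} {A : Matrix (Fin N) (Fin N) ℕ} {B : Type} [CStarAlgebra B] {S : Fin N → B}

lemma theta_sum (S : Fin N → B) {ι : Type} (t : Finset ι) (f : ι → B) :
    theta S (∑ a ∈ t, f a) = ∑ a ∈ t, theta S (f a) := by
  unfold theta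
  rw [Finset.sum_comm]
  refine Finset.sum_congr rfl (fun i _ => ?_)
  rw [Finset.mul_sum, Finset.sum_mul]

lemma theta_one (h : CK A S) : theta S 1 = 1 := by
  unfold theta
  simpa using h.sum_one

lemma theta_iter_sum (h : CK A S) (k : ℕ) : ∑ a, (theta S)^[k] (PP S a) = 1 := by
  induction k with
  | zero => exact h.sum_one
  | succ k ih =>
    simp only [Function.iterate_succ_apply']
    rw [← theta_sum, ih, theta_one h]

lemma theta_iter_nonneg [PartialOrder B] [StarOrderedRing B] (S : Fin N → B) (a : Fin N) (k : ℕ) :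
    0 ≤ (theta S)^[k] (PP S a) := by
  induction k with
  | zero => exact mul_star_self_nonneg _
  | succ k ih =>
    rw [Function.iterate_succ_apply']
    unfold theta
    exact Finset.sum_nonneg (fun i _ => star_right_conjugate_nonneg ih _)

/-- the key estimate in the algebra -/
lemma key [Nontrivial B] {d : ℕ} (s : Sys d B) (n : ℕ) (y q : Fin (n + 1) → B) (p : B)
    (ε τ l' : ℝ) (hε : 0 < ε) (hε1 : ε < 1) (hτ : τ = ε / ((d : ℝ) + 1))
    (hp0 : p ≠ 0) (hps : star p = p) (hpp : p * p = p) (hq : ∀ k, q k * p = p)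
    (hqn : ∀ k, Pos (q k)) (hy : ∀ k, y k = s.T (q k)) (hyq : ∀ k, ‖y k - q k‖ ≤ ε)
    (hT1 : ‖s.T 1 - 1‖ ≤ ε)
    (hD : Pos (l' • (s.T 1 + τ • ∑ i, s.φ i 1) - ∑ k, y k)) :
    (n + 1) * ((1 - ε) / (1 + 2 * ε)) ≤ l' := by
  let _ := CStarAlgebra.spectralOrder B
  let _ := CStarAlgebra.spectralOrderedRing B
  set Z : B := s.T 1 + τ • ∑ i, s.φ i 1 with hZ
  have hd : (0 : ℝ) < (d : ℝ) + 1 := by positivity
  have hτ0 : 0 ≤ τ := by rw [hτ]; positivity
  have hpn : 0 ≤ p := by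
    have : p = star p * p := by rw [hps, hpp]
    rw [this]; exact star_mul_self_nonneg p
  have hT1n : 0 ≤ s.T 1 := T_nonneg s zero_le_one
  -- (c)
  have hZn : 0 ≤ Z := add_nonneg hT1n (smul_nonneg hτ0 (phi_one_nonneg s))
  have hc : 0 ≤ p * Z * p := by
    have := star_left_conjugate_nonneg hZn p
    rwa [hps] at this
  -- (b)
  have hZle : 0 ≤ (1 + 2 * ε) • (1 : B) - Z := by
    have h1 := (norm_bounds (x := s.T 1 - 1)
      ((IsSelfAdjoint.of_nonneg hT1n).sub (IsSelfAdjoint.one B)) hT1).2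
    have h2 : 0 ≤ τ • (((d : ℝ) + 1) • (1 : B) - ∑ i, s.φ i 1) :=
      smul_nonneg hτ0 (sub_nonneg.2 (phi_one_le s))
    have h3 := add_nonneg h1 h2
    have h4 : τ * ((d : ℝ) + 1) = ε := by rw [hτ]; field_simp
    have e : ε • (1 : B) - (s.T 1 - 1) + τ • (((d : ℝ) + 1) • (1 : B) - ∑ i, s.φ i 1) =
        (1 + 2 * ε) • (1 : B) - Z := by
      rw [hZ, smul_sub, smul_smul, h4]
      module
    rwa [e] at h3
  have hb : 0 ≤ (1 + 2 * ε) • p - p * Z * p := by
    have := star_left_conjugate_nonneg hZle p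
    rw [hps, mul_sub, sub_mul] at this
    simpa [hpp] using this
  -- (a)
  have ha : ∀ k, 0 ≤ p * y k * p - (1 - ε) • p := by
    intro k
    have hqk : 0 ≤ q k := pos_iff_nonneg.1 (hqn k)
    have hyk : 0 ≤ y k := by rw [hy k]; exact T_nonneg s hqk
    have h1 := (norm_bounds (x := y k - q k)
      ((IsSelfAdjoint.of_nonneg hyk).sub (IsSelfAdjoint.of_nonneg hqk)) (hyq k)).1
    have h2 := star_left_conjugate_nonneg h1 p
    have e : star p * (y k - q k + ε • (1 : B)) * p = p * y k * p - (1 - ε) • p := by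
      rw [hps, mul_add, mul_sub, add_mul, sub_mul]
      have h3 : p * q k * p = p := by rw [mul_assoc, hq k, hpp]
      have h4 : p * (ε • (1 : B)) * p = ε • p := by simp [hpp]
      rw [h3, h4]
      module
    rwa [e] at h2
  have ha' : 0 ≤ (∑ k, p * y k * p) - (((n : ℝ) + 1) * (1 - ε)) • p := by
    have h1 : 0 ≤ ∑ k, (p * y k * p - (1 - ε) • p) := Finset.sum_nonneg (fun k _ => ha k)
    rw [Finset.sum_sub_distrib] at h1
    have e : ∑ _k : Fin (n + 1), (1 - ε) • p = (((n : ℝ) + 1) * (1 - ε)) • p := by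
      rw [Finset.sum_const, Finset.card_univ, Fintype.card_fin, ← Nat.cast_smul_eq_nsmul ℝ,
        smul_smul]
      push_cast
      rfl
    rwa [e] at h1
  -- (d)
  have hd' : 0 ≤ l' • (p * Z * p) - ∑ k, p * y k * p := by
    have h1 := star_left_conjugate_nonneg (pos_iff_nonneg.1 hD) p
    have e : star p * (l' • Z - ∑ k, y k) * p = l' • (p * Z * p) - ∑ k, p * y k * p := by
      rw [hps, mul_sub, sub_mul, Finset.mul_sum, Finset.sum_mul]
      simp
    rwa [e] at h1
  have hr : ∀ r : ℝ, r < 0 → ¬ 0 ≤ r • p := by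
    intro r hr h
    have h1 : 0 ≤ (-r) • p := smul_nonneg (by linarith) hpn
    rw [neg_smul] at h1
    have h2 : r • p = 0 := le_antisymm (neg_nonneg.1 h1) h
    rcases smul_eq_zero.1 h2 with h3 | h3
    · exact hr.ne h3
    · exact hp0 h3
  by_contra hcon
  rw [not_le] at hcon
  have hε2 : 0 < 1 + 2 * ε := by linarith
  have hlt : l' * (1 + 2 * ε) < (n + 1) * (1 - ε) := by
    have := (mul_lt_mul_iff_left₀ hε2).2 hcon
    have e : (n + 1) * ((1 - ε) / (1 + 2 * ε)) * (1 + 2 * ε) = ((n : ℝ) + 1) * (1 - ε) := by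
      field_simp
    rwa [e] at this
  rcases le_or_gt l' 0 with hl | hl
  · have h1 := add_nonneg (add_nonneg hd' ha') (smul_nonneg (neg_nonneg.2 hl) hc)
    have e : l' • (p * Z * p) - ∑ k, p * y k * p +
        ((∑ k, p * y k * p) - (((n : ℝ) + 1) * (1 - ε)) • p) + (-l') • (p * Z * p) =
        (-(((n : ℝ) + 1) * (1 - ε))) • p := by
      module
    rw [e] at h1
    have h2 : 0 < ((n : ℝ) + 1) * (1 - ε) := by
      have : 0 < 1 - ε := by linarith
      positivity
    exact hr _ (by linarith) h1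
  · have h1 := add_nonneg (add_nonneg hd' ha') (smul_nonneg hl.le hb)
    have e : l' • (p * Z * p) - ∑ k, p * y k * p +
        ((∑ k, p * y k * p) - (((n : ℝ) + 1) * (1 - ε)) • p) +
        l' • ((1 + 2 * ε) • p - p * Z * p) =
        (l' * (1 + 2 * ε) - ((n : ℝ) + 1) * (1 - ε)) • p := by
      module
    rw [e] at h1
    exact hr _ (by linarith) h1

/-- a positive definite matrix is of the form `cᴴ c` with `c` invertible -/
lemma exists_inv {K : Type} [Fintype K] [DecidableEq K] {M : Matrix K K ℂ} (hM : M.PosSemidef)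
    {τ : ℝ} (hτ : 0 < τ) : ∃ c c' : Matrix K K ℂ, c * c' = 1 ∧ c' * c = 1 ∧
      M + (τ : ℂ) • (1 : Matrix K K ℂ) = cᴴ * c := by
  have h1 : (M + (τ : ℂ) • (1 : Matrix K K ℂ)).PosDef := by
    rw [add_comm]
    refine PosDef.add_posSemidef ?_ hM
    refine PosDef.smul PosDef.one ?_
    exact_mod_cast hτ
  obtain ⟨c, hc⟩ := pos_iff_psd.2 h1.posSemidef
  have h2 : (star c * c).det ≠ 0 := by rw [← hc]; exact h1.det_pos.ne'
  rw [det_mul] at h2
  have h3 : IsUnit c.det := isUnit_iff_ne_zero.2 (fun h => h2 (by rw [h, mul_zero]))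
  exact ⟨c, c⁻¹, mul_nonsing_inv c h3, nonsing_inv_mul c h3, hc⟩

lemma psi_sum {d : ℕ} (s : Sys d B) {ι : Type} (t : Finset ι) (f : ι → B) :
    s.T (∑ a ∈ t, f a) = ∑ a ∈ t, s.T (f a) := by
  unfold Sys.T
  rw [Finset.sum_comm]
  refine Finset.sum_congr rfl (fun i _ => ?_)
  rw [map_sum, map_sum]

theorem t_LOW : S_CNT → S_NZ → S_LOW := by
  intro hCNT hNZ N A B _ _ S hN h01 hi h d s n ε t hε hε1 ht hT1 hTk
  classical
  set W : Finset (Fin (n + 1) → Fin N) := Finset.univ.filter (fun x => Adm A x) with hW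
  have hWc : (Nat.card {x : Fin (n + 1) → Fin N // Adm A x} : ℝ) = W.card := by
    rw [Nat.card_eq_fintype_card, Fintype.card_subtype]
  set τ : ℝ := ε / ((d : ℝ) + 1) with hτ
  have hτ0 : 0 < τ := by rw [hτ]; positivity
  have hQn : ∀ (k : ℕ) (a : Fin N), Pos ((theta S)^[k] (PP S a)) := by
    intro k a
    let _ := CStarAlgebra.spectralOrder B
    let _ := CStarAlgebra.spectralOrderedRing B
    exact pos_iff_nonneg.2 (theta_iter_nonneg S a k)
  have hψ1 : ∀ i, (s.ψ i 1).PosSemidef := fun i =>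
    pos_iff_psd.1 (cp_pos (s.ψ_cp i) ⟨1, by simp⟩)
  choose c c' hcc hcc' hce using fun i => exists_inv (hψ1 i) hτ0
  have hccH : ∀ i, (c' i)ᴴ * (c i)ᴴ = 1 := fun i => by
    rw [← conjTranspose_mul, hcc, conjTranspose_one]
  have hccH' : ∀ i, (c i)ᴴ * (c' i)ᴴ = 1 := fun i => by
    rw [← conjTranspose_mul, hcc', conjTranspose_one]
  have hone : ∀ i, (1 : Matrix (s.K i) (s.K i) ℂ) =
      (c' i)ᴴ * (s.ψ i 1 + (τ : ℂ) • 1) * c' i := by
    intro i
    rw [hce i]
    calc (1 : Matrix (s.K i) (s.K i) ℂ) = ((c' i)ᴴ * (c i)ᴴ) * (c i * c' i) := by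
          rw [hccH, hcc, mul_one]
      _ = _ := by simp only [Matrix.mul_assoc]
  rw [hWc]
  have main := hCNT s.ι s.K N (n + 1)
    (fun k a i => (c' i)ᴴ * s.ψ i ((theta S)^[k] (PP S a)) * c' i) W t
    ((n + 1) * ((1 - ε) / (1 + 2 * ε))) hN ?_ ?_ ht ?_
  · exact main
  · intro k a i
    exact (pos_iff_psd.1 (cp_pos (s.ψ_cp i) (hQn k a))).conjTranspose_mul_mul_same _
  · intro k i
    have e : 1 - ∑ a, (c' i)ᴴ * s.ψ i ((theta S)^[k] (PP S a)) * c' i =
        (c' i)ᴴ * ((τ : ℂ) • 1) * c' i := by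
      rw [← Finset.sum_mul, ← Finset.mul_sum, ← map_sum, theta_iter_sum h]
      nth_rewrite 1 [hone i]
      rw [Matrix.mul_add, Matrix.add_mul]
      abel
    rw [e]
    refine PosSemidef.conjTranspose_mul_mul_same ?_ _
    refine (PosDef.smul PosDef.one ?_).posSemidef
    exact_mod_cast hτ0
  · intro x hx l' hl'
    have hxA : Adm A x := (Finset.mem_filter.1 hx).2
    obtain ⟨p, hp0, hps, hpp, hpk⟩ := hNZ N A B S h01 hi h n x hxA
    refine key s n (fun k => s.T ((theta S)^[k] (PP S (x k)))) (fun k => (theta S)^[k] (PP S (x k)))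
      p ε τ l' hε hε1 hτ hp0 hps hpp hpk (fun k => hQn k _) (fun k => rfl)
      (fun k => hTk k (x k) k.isLt) hT1 ?_
    -- the positive element
    let _ := CStarAlgebra.spectralOrder B
    let _ := CStarAlgebra.spectralOrderedRing B
    have hD : ∀ i, Pos ((l' : ℂ) • (s.ψ i 1 + (τ : ℂ) • 1) -
        ∑ k : Fin (n + 1), s.ψ i ((theta S)^[k] (PP S (x k)))) := by
      intro i
      rw [pos_iff_psd]
      have h1 := (hl' i).conjTranspose_mul_mul_same (c i)
      have e : (c i)ᴴ * ((l' : ℂ) • (1 : Matrix (s.K i) (s.K i) ℂ) -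
          ∑ k : Fin (n + 1), (c' i)ᴴ * s.ψ i ((theta S)^[k] (PP S (x k))) * c' i) * c i =
          (l' : ℂ) • (s.ψ i 1 + (τ : ℂ) • 1) -
            ∑ k : Fin (n + 1), s.ψ i ((theta S)^[k] (PP S (x k))) := by
        rw [Matrix.mul_sub, Matrix.sub_mul, ← Finset.sum_mul, ← Finset.mul_sum]
        congr 1
        · rw [hce i]
          simp
        · calc (c i)ᴴ * ((c' i)ᴴ * (∑ k : Fin (n + 1), s.ψ i ((theta S)^[k] (PP S (x k)))) *
                c' i) * c i
              = ((c i)ᴴ * (c' i)ᴴ) * (∑ k : Fin (n + 1), s.ψ i ((theta S)^[k] (PP S (x k)))) *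
                (c' i * c i) := by simp only [Matrix.mul_assoc]
            _ = _ := by rw [hccH', hcc', Matrix.one_mul, Matrix.mul_one]
      rwa [e] at h1
    have hsum : 0 ≤ ∑ i, s.φ i ((l' : ℂ) • (s.ψ i 1 + (τ : ℂ) • 1) -
        ∑ k : Fin (n + 1), s.ψ i ((theta S)^[k] (PP S (x k)))) :=
      Finset.sum_nonneg (fun i _ => pos_iff_nonneg.1 (cp_pos (s.φ_cp i) (hD i)))
    have e : ∑ i, s.φ i ((l' : ℂ) • (s.ψ i 1 + (τ : ℂ) • 1) -
        ∑ k : Fin (n + 1), s.ψ i ((theta S)^[k] (PP S (x k)))) =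
        l' • (s.T 1 + τ • ∑ i, s.φ i 1) -
          ∑ k : Fin (n + 1), s.T ((theta S)^[k] (PP S (x k))) := by
      simp only [map_sub, map_smul, map_add, map_sum]
      simp only [Complex.coe_smul]
      rw [Finset.sum_sub_distrib, ← Finset.smul_sum, Finset.sum_add_distrib, ← Finset.smul_sum,
        Finset.sum_comm]
      rfl
    rw [e] at hsum
    exact pos_iff_nonneg.2 hsum

end Run7.h592.CE
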