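import Pool.Agent.Run7.h450.CE.Iface

/-!
# Project CE (helper450), piece NZ, written by helper592
-/

set_option autoImplicit false
open Filter Topology

namespace Run7.h592.CE

open Run7.h450.CE

variable {N : ℕ} {A : Matrix (Fin N) (Fin N) ℕ} {B : Type} [CStarAlgebra B] {S : Fin N → B}

lemma PP_star (j : Fin N) : star (PP S j) = PP S j := by
  simp [PP, star_mul]

lemma PP_mul_S (h : CK A S) (j : Fin N) : PP S j * S j = S j := h.isom j

lemma PP_idem (h : CK A S) (j : Fin N) : PP S j * PP S j = PP S j := by
  have := h.isom j
  unfold PP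
  rw [← mul_assoc, this]

lemma PP_orth (h : CK A S) {i j : Fin N} (hij : i ≠ j) : PP S i * PP S j = 0 := by
  let _ := CStarAlgebra.spectralOrder B
  let _ := CStarAlgebra.spectralOrderedRing B
  have e1 : ∑ k, PP S j * PP S k * PP S j = PP S j := by
    rw [← Finset.sum_mul, ← Finset.mul_sum]
    have : ∑ k, PP S k = 1 := h.sum_one
    rw [this, mul_one, PP_idem h]
  have hnn : ∀ k, 0 ≤ PP S j * PP S k * PP S j := by
    intro k
    have : PP S j * PP S k * PP S j = star (PP S k * PP S j) * (PP S k * PP S j) := by
      rw [star_mul, PP_star, PP_star]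
      calc PP S j * PP S k * PP S j = PP S j * (PP S k * PP S k) * PP S j := by rw [PP_idem h]
        _ = PP S j * PP S k * (PP S k * PP S j) := by simp only [mul_assoc]
    rw [this]
    exact star_mul_self_nonneg _
  have e2 : ∑ k ∈ Finset.univ.erase j, PP S j * PP S k * PP S j = 0 := by
    have := Finset.add_sum_erase Finset.univ (fun k => PP S j * PP S k * PP S j)
      (Finset.mem_univ j)
    rw [e1] at this
    simp only [PP_idem h] at this
    simpa using this
  have e3 := (Finset.sum_eq_zero_iff_of_nonneg (fun k _ => hnn k)).1 e2 i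
    (Finset.mem_erase.2 ⟨hij, Finset.mem_univ _⟩)
  have e4 : star (PP S i * PP S j) * (PP S i * PP S j) = 0 := by
    rw [star_mul, PP_star, PP_star]
    calc PP S j * PP S i * (PP S i * PP S j) = PP S j * (PP S i * PP S i) * PP S j := by
          simp only [mul_assoc]
      _ = 0 := by rw [PP_idem h]; exact e3
  exact CStarRing.star_mul_self_eq_zero_iff _ |>.1 e4

lemma S_star_mul (h : CK A S) {i j : Fin N} (hij : i ≠ j) : star (S i) * S j = 0 := by
  have h1 : star (S i) * PP S i = star (S i) := by
    have := congrArg star (h.isom i)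
    simpa [PP, star_mul, mul_assoc] using this
  calc star (S i) * S j = (star (S i) * PP S i) * (PP S j * S j) := by rw [h1, PP_mul_S h]
    _ = star (S i) * (PP S i * PP S j) * S j := by simp only [mul_assoc]
    _ = 0 := by rw [PP_orth h hij]; simp

lemma S_zero_step (h : CK A S) {i j : Fin N} (h0 : S i = 0) (hA : A i j ≠ 0) : S j = 0 := by
  have e := h.rel i
  rw [h0, mul_zero] at e
  have e1 : (A i j : ℂ) • PP S j = 0 := by
    have : (∑ k, (A i k : ℂ) • (S k * star (S k))) * PP S j = 0 := by rw [← e, zero_mul]
    rw [Finset.sum_mul, Finset.sum_eq_single j] at this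
    · rw [smul_mul_assoc] at this
      have h2 := PP_idem h j
      unfold PP at h2 this
      rw [h2] at this
      exact this
    · intro k _ hk
      rw [smul_mul_assoc]
      have := PP_orth h hk
      unfold PP at this ⊢
      rw [this, smul_zero]
    · intro hj; exact absurd (Finset.mem_univ j) hj
  have e2 : PP S j = 0 := by
    rcases smul_eq_zero.1 e1 with h3 | h3
    · exact absurd (by exact_mod_cast h3) hA
    · exact h3
  rw [← PP_mul_S h j, e2, zero_mul]

lemma S_zero_pow (h : CK A S) {i : Fin N} (h0 : S i = 0) :
    ∀ (m : ℕ) (j : Fin N), 0 < (A ^ m) i j → S j = 0 := by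
  intro m
  induction m with
  | zero =>
    intro j hj
    rw [pow_zero, Matrix.one_apply] at hj
    by_cases hij : i = j
    · rw [← hij]; exact h0
    · simp [hij] at hj
  | succ m ih =>
    intro j hj
    rw [pow_succ, Matrix.mul_apply] at hj
    obtain ⟨k, -, hk⟩ := Finset.exists_ne_zero_of_sum_ne_zero hj.ne'
    have h1 : 0 < (A ^ m) i k := Nat.pos_of_ne_zero (fun h => hk (by rw [h, zero_mul]))
    have h2 : A k j ≠ 0 := fun h => hk (by rw [h, mul_zero])
    exact S_zero_step h (ih k h1) h2

lemma S_ne_zero [Nontrivial B] (h : CK A S) (hi : Irred A) (i : Fin N) : S i ≠ 0 := by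
  intro h0
  have : ∀ j, S j = 0 := by
    intro j
    obtain ⟨m, -, hm⟩ := hi i j
    exact S_zero_pow h h0 m j hm
  have h1 := h.sum_one
  simp [this] at h1

lemma proj_mul (h : CK A S) {i j : Fin N} (hA : A i j = 1) {p : B}
    (hp : PP S j * p = p) : star (S i) * S i * p = p := by
  rw [h.rel i, Finset.sum_mul, Finset.sum_eq_single j]
  · rw [hA]
    simp only [Nat.cast_one, one_smul]
    exact hp
  · intro k _ hk
    rw [smul_mul_assoc]
    have : S k * star (S k) * p = 0 := by
      calc S k * star (S k) * p = PP S k * (PP S j * p) := by rw [hp]; rfl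
        _ = 0 := by rw [← mul_assoc, PP_orth h hk, zero_mul]
    rw [this, smul_zero]
  · intro hj; exact absurd (Finset.mem_univ j) hj

theorem t_NZ : S_NZ := by
  intro N A B _ _ S h01 hi h n
  induction n with
  | zero =>
    intro x _
    refine ⟨PP S (x 0), ?_, PP_star _, PP_idem h _, ?_⟩
    · intro h0
      apply S_ne_zero h hi (x 0)
      rw [← PP_mul_S h (x 0), h0, zero_mul]
    · intro k
      have hk : k = 0 := Fin.ext (by simp)
      subst hk
      simpa using PP_idem h (x 0)
  | succ n ih =>
    intro x hx
    obtain ⟨p, hp0, hps, hpp, hpk⟩ := ih (fun k => x k.succ) (by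
      intro k
      show A (x k.castSucc.succ) (x k.succ.succ) = 1
      rw [Fin.succ_castSucc]
      exact hx k.succ)
    have hA : A (x 0) (x 1) = 1 := by simpa using hx 0
    have hp1 : PP S (x 1) * p = p := by simpa using hpk 0
    have hQ : star (S (x 0)) * S (x 0) * p = p := proj_mul h hA hp1
    have hQ' : p * (star (S (x 0)) * S (x 0)) = p := by
      have := congrArg star hQ
      simpa [star_mul, hps, mul_assoc] using this
    refine ⟨S (x 0) * p * star (S (x 0)), ?_, ?_, ?_, ?_⟩
    · intro h0
      apply hp0
      calc p = (star (S (x 0)) * S (x 0) * p) * (star (S (x 0)) * S (x 0)) := by rw [hQ, hQ']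
        _ = star (S (x 0)) * (S (x 0) * p * star (S (x 0))) * S (x 0) := by
          simp only [mul_assoc]
        _ = 0 := by rw [h0]; simp
    · simp [star_mul, hps, mul_assoc]
    · calc S (x 0) * p * star (S (x 0)) * (S (x 0) * p * star (S (x 0)))
          = S (x 0) * p * (star (S (x 0)) * S (x 0) * p) * star (S (x 0)) := by
            simp only [mul_assoc]
        _ = S (x 0) * p * star (S (x 0)) := by rw [hQ, mul_assoc (S (x 0)) p p, hpp]
    · intro k
      refine Fin.cases ?_ (fun k => ?_) k
      · show PP S (x 0) * (S (x 0) * p * star (S (x 0))) = _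
        calc PP S (x 0) * (S (x 0) * p * star (S (x 0)))
            = (PP S (x 0) * S (x 0)) * p * star (S (x 0)) := by simp only [mul_assoc]
          _ = _ := by rw [PP_mul_S h]
      · rw [Fin.val_succ, Function.iterate_succ_apply']
        have hk := hpk k
        set y := (theta S)^[k] (PP S (x k.succ)) with hy
        have hsum : theta S y * (S (x 0) * p * star (S (x 0))) =
            S (x 0) * y * star (S (x 0)) * (S (x 0) * p * star (S (x 0))) := by
          unfold theta
          rw [Finset.sum_mul, Finset.sum_eq_single (x 0)]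
          · intro i _ hi'
            calc S i * y * star (S i) * (S (x 0) * p * star (S (x 0)))
                = S i * y * (star (S i) * S (x 0)) * p * star (S (x 0)) := by
                  simp only [mul_assoc]
              _ = 0 := by rw [S_star_mul h hi']; simp
          · intro hj; exact absurd (Finset.mem_univ _) hj
        rw [hsum]
        calc S (x 0) * y * star (S (x 0)) * (S (x 0) * p * star (S (x 0)))
            = S (x 0) * y * (star (S (x 0)) * S (x 0) * p) * star (S (x 0)) := by
              simp only [mul_assoc]
          _ = S (x 0) * (y * p) * star (S (x 0)) := by rw [hQ]; simp only [mul_assoc]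
          _ = S (x 0) * p * star (S (x 0)) := by rw [hk]

end Run7.h592.CE
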